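import Pool.Agent.Helper14.DT.Final

/-!
# `δθ`-refinability is not preserved by perfect maps (nor by closed maps)

MP_17359d_gt, Q1 and Q2.  We construct, in ZFC, a closed continuous surjection `f : X → Y` between
`T₁` spaces all of whose fibres are finite, such that `X` is `δθ`-refinable (submetalindelöf) and
`Y` is not.
-/

namespace Pool.Agent.Results.MP_17359d_gt.FiniteToOneImages

/-- `X` is *`δθ`-refinable* (submetalindelöf): for every open cover `𝒰` there is a sequence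
`𝒱 0, 𝒱 1, …` of open covers refining `𝒰` such that every point `x` lies, for some `n`, in at most
countably many members of `𝒱 n`. -/
def DeltaThetaRefinable (X : Type) [TopologicalSpace X] : Prop :=
  ∀ 𝒰 : Set (Set X), (∀ U ∈ 𝒰, IsOpen U) → ⋃₀ 𝒰 = Set.univ →
    ∃ 𝒱 : ℕ → Set (Set X),
      (∀ n, (∀ V ∈ 𝒱 n, IsOpen V) ∧ ⋃₀ 𝒱 n = Set.univ ∧ ∀ V ∈ 𝒱 n, ∃ U ∈ 𝒰, V ⊆ U) ∧
      ∀ x, ∃ n, {V | V ∈ 𝒱 n ∧ x ∈ V}.Countable

/-- There are `T₁` spaces `X`, `Y` and a continuous closed surjection `f : X → Y` with finite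
(hence compact) fibres such that `X` is `δθ`-refinable and `Y` is not `δθ`-refinable. -/
theorem result :
    ∃ (X Y : Type) (_ : TopologicalSpace X) (_ : TopologicalSpace Y) (f : X → Y),
      T1Space X ∧ T1Space Y ∧ Continuous f ∧ Function.Surjective f ∧ IsClosedMap f ∧
      (∀ y, (f ⁻¹' {y}).Finite) ∧ (∀ y, IsCompact (f ⁻¹' {y})) ∧
      DeltaThetaRefinable X ∧ ¬ DeltaThetaRefinable Y := by
  obtain ⟨X, Y, tX, tY, f, h1, h2, h3, h4, h5, h6, h7, h8⟩ := Pool.Agent.Helper14.DT.final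
  exact ⟨X, Y, tX, tY, f, h1, h2, h3, h4, h5, h6, fun y => (h6 y).isCompact, h7, h8⟩

end Pool.Agent.Results.MP_17359d_gt.FiniteToOneImages
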